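import Mathlib
import Pool.Agent.R325.LucasFib

/-!
# Even `n`: when are all irreducible factors of the Fibonacci polynomial `F_n` monogenic?

Answer: exactly for the powers of two. If an odd `d ≥ 3` divides `n`, then `ζ - ζ⁻¹` with `ζ` of
order `d` is a root of `F_n`, and `ℤ[ζ - ζ⁻¹]` is never a full ring of integers. If `n = 2 ^ k`,
the nonzero roots are `θ = w - w⁻¹` with `w` of order `2 ^ (m + 3)`; an algebraic integer `x` of
`ℚ(θ)` is `h(w) = h(-w⁻¹)` with `h ∈ ℤ[X]`, so `2 x = ∑ h_i (w ^ i + (-w⁻¹) ^ i)` lies in `ℤ[θ]`,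
and the minimal polynomial of `θ` is Eisenstein at `2`.
-/

set_option autoImplicit false

namespace Pool.Agent.Results.MP_b164a8_nt.EvenFibonacci

open Polynomial IntermediateField Pool.Agent.R325.LucasFib

/-- The polynomials `L_{2^(j+1)}`. -/
noncomputable def e : ℕ → ℤ[X]
  | 0 => X ^ 2 + C 2
  | (j + 1) => e j ^ 2 - C 2

theorem e_monic (j : ℕ) : (e j).Monic ∧ (e j).natDegree = 2 ^ (j + 1) := by
  induction j with
  | zero => exact ⟨monic_X_pow_add_C 2 (by norm_num), natDegree_X_pow_add_C⟩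
  | succ j ih =>
    rw [e]
    have h1 : ((e j) ^ 2).Monic := ih.1.pow 2
    have h2 : ((e j) ^ 2).natDegree = 2 ^ (j + 1 + 1) := by
      rw [ih.1.natDegree_pow, ih.2]; ring
    have h3 : (C 2 : ℤ[X]).degree < ((e j) ^ 2).degree := by
      rw [degree_eq_natDegree h1.ne_zero, h2]
      refine lt_of_le_of_lt degree_C_le ?_
      exact_mod_cast Nat.pos_of_ne_zero (by positivity)
    exact ⟨h1.sub_of_left h3, by rw [natDegree_sub_C, h2]⟩

theorem e_coeff_zero (j : ℕ) : (e j).coeff 0 = 2 := by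
  induction j with
  | zero => simp [e]
  | succ j ih =>
    rw [e, coeff_sub, coeff_C_zero, pow_two, mul_coeff_zero, ih]; norm_num

theorem e_map (j : ℕ) : (e j).map (Int.castRingHom (ZMod 2)) = X ^ 2 ^ (j + 1) := by
  have h2 : (C 2 : ℤ[X]).map (Int.castRingHom (ZMod 2)) = 0 := by
    rw [map_C]
    have : (Int.castRingHom (ZMod 2)) 2 = 0 := by decide
    rw [this, C_0]
  induction j with
  | zero => rw [e, Polynomial.map_add, h2, Polynomial.map_pow, map_X, add_zero]; norm_num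
  | succ j ih =>
    rw [e, Polynomial.map_sub, h2, Polynomial.map_pow, ih, sub_zero, ← pow_mul]
    ring_nf

theorem e_eisenstein (j : ℕ) : (e j).IsEisensteinAt (Ideal.span {(2 : ℤ)}) := by
  refine ⟨?_, ?_, ?_⟩
  · rw [(e_monic j).1.leadingCoeff, Ideal.mem_span_singleton]; norm_num
  · intro n hn
    rw [Ideal.mem_span_singleton]
    have h := congrArg (fun p => p.coeff n) (e_map j)
    simp only [coeff_map, coeff_X_pow] at h
    rw [(e_monic j).2] at hn
    rw [if_neg hn.ne] at h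
    have : (((e j).coeff n : ℤ) : ZMod 2) = 0 := by simpa using h
    exact (ZMod.intCast_zmod_eq_zero_iff_dvd _ 2).mp this
  · rw [e_coeff_zero, Ideal.span_singleton_pow, Ideal.mem_span_singleton]; norm_num

theorem e_irreducible (j : ℕ) : Irreducible (e j) :=
  (e_eisenstein j).irreducible ((Ideal.span_singleton_prime (by norm_num)).mpr Int.prime_two)
    (e_monic j).1.isPrimitive (by rw [(e_monic j).2]; positivity)

theorem e_aeval (w : ℂ) (hw : w ≠ 0) (j : ℕ) :
    aeval (w - w⁻¹) (e j) = w ^ 2 ^ (j + 1) + (w ^ 2 ^ (j + 1))⁻¹ := by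
  induction j with
  | zero =>
    simp only [e, map_add, map_pow, aeval_X, aeval_C]
    norm_num
    field_simp
    ring
  | succ j ih =>
    have h0 : w ^ 2 ^ (j + 1) ≠ 0 := pow_ne_zero _ hw
    rw [e, map_sub, map_pow, ih, aeval_C, pow_succ 2 (j + 1), pow_mul]
    have : (algebraMap ℤ ℂ) 2 = 2 := by simp
    rw [this]
    field_simp
    ring

/-- `ℤ[w]` is the ring of integers of `ℚ(w)` for `w` of order a power of two. -/
theorem mem_adjoin_of_integral (m : ℕ) (w : ℂ) (hw : IsPrimitiveRoot w (2 ^ m)) (x : ℂ)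
    (hx : x ∈ ℚ⟮w⟯) (hint : IsIntegral ℤ x) : ∃ h : ℤ[X], aeval w h = x := by
  have : Fact (Nat.Prime 2) := ⟨Nat.prime_two⟩
  have hwalg : IsAlgebraic ℚ w :=
    ((hw.isIntegral (by positivity)).tower_top (A := ℚ)).isAlgebraic
  have inst : IsCyclotomicExtension {2 ^ m} ℚ ℚ⟮w⟯ := by
    change IsCyclotomicExtension {2 ^ m} ℚ (ℚ⟮w⟯).toSubalgebra
    rw [adjoin_simple_toSubalgebra_of_isAlgebraic hwalg]
    exact hw.adjoin_isCyclotomicExtension ℚ
  have hgen : IsPrimitiveRoot (AdjoinSimple.gen ℚ w) (2 ^ m) := by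
    rw [← IsPrimitiveRoot.coe_submonoidClass_iff]
    exact hw
  have hcl := IsCyclotomicExtension.Rat.isIntegralClosure_adjoin_singleton_of_prime_pow
    (p := 2) (k := m) (K := ℚ⟮w⟯) hgen
  have hint' : IsIntegral ℤ (⟨x, hx⟩ : ℚ⟮w⟯) := by
    have := (isIntegral_algHom_iff (ℚ⟮w⟯.val.restrictScalars ℤ) (ℚ⟮w⟯.val.injective)
      (x := (⟨x, hx⟩ : ℚ⟮w⟯))).mp (by simpa using hint)
    exact this
  obtain ⟨y, hy⟩ := hcl.isIntegral_iff.mp hint'
  have hy2 : (y : ℚ⟮w⟯) ∈ (aeval (R := ℤ) (AdjoinSimple.gen ℚ w)).range := by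
    rw [← Algebra.adjoin_singleton_eq_range_aeval]
    exact y.2
  obtain ⟨h, hh⟩ := hy2
  refine ⟨h, ?_⟩
  have h1 : aeval (AdjoinSimple.gen ℚ w) h = (⟨x, hx⟩ : ℚ⟮w⟯) := by
    rw [← hy]; exact hh
  have h2 := congrArg (fun t : ℚ⟮w⟯ => (t : ℂ)) h1
  simp only at h2
  rw [← h2]
  have := aeval_algebraMap_apply ℂ (AdjoinSimple.gen ℚ w) h
  simpa using this

theorem prim_neg_inv (m : ℕ) (w : ℂ) (hw : IsPrimitiveRoot w (2 ^ (m + 2))) :
    IsPrimitiveRoot (-w⁻¹) (2 ^ (m + 2)) := by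
  have : Fact (Nat.Prime 2) := ⟨Nat.prime_two⟩
  have h1 : orderOf (-w⁻¹) = 2 ^ (m + 1 + 1) := by
    apply orderOf_eq_prime_pow
    · rw [Even.neg_pow (by rw [pow_succ]; exact even_two.mul_left _), inv_pow, inv_eq_one]
      intro h
      have := Nat.le_of_dvd (by positivity) (hw.dvd_of_pow_eq_one _ h)
      have := Nat.pow_lt_pow_right (a := 2) (by norm_num) (show m + 1 < m + 2 by omega)
      omega
    · rw [Even.neg_pow (by rw [pow_succ]; exact even_two.mul_left _), inv_pow, inv_eq_one]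
      exact hw.pow_eq_one
  have := IsPrimitiveRoot.orderOf (-w⁻¹)
  rwa [h1] at this

/-- For `w` of order `2 ^ (m + 3)` the ring `ℤ[w - w⁻¹]` is the full ring of integers. -/
theorem full_two_power (m : ℕ) (w : ℂ) (hw : IsPrimitiveRoot w (2 ^ (m + 3))) :
    IsFullRing (w - w⁻¹) := by
  set M := 2 ^ (m + 3) with hM
  have hM0 : 0 < M := by positivity
  have hw0 : w ≠ 0 := hw.ne_zero hM0.ne'
  set θ := w - w⁻¹ with hθ
  have hwint : IsIntegral ℤ w := hw.isIntegral hM0
  have hwinv : IsIntegral ℤ w⁻¹ := hw.inv.isIntegral hM0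
  have hθint : IsIntegral ℤ θ := hwint.sub hwinv
  have hθalg : IsIntegral ℚ θ := hθint.tower_top
  have hpow : w ^ (M - 1) = w⁻¹ := by
    apply eq_inv_of_mul_eq_one_left
    rw [← pow_succ, Nat.sub_add_cancel hM0]
    exact hw.pow_eq_one
  have hw' := prim_neg_inv (m + 1) w hw
  have hw'0 : (-w⁻¹) ≠ 0 := hw'.ne_zero hM0.ne'
  have hpow' : (-w⁻¹) ^ (M - 1) = -w := by
    have : (-w⁻¹) ^ (M - 1) = (-w⁻¹)⁻¹ := by
      apply eq_inv_of_mul_eq_one_left
      rw [← pow_succ, Nat.sub_add_cancel hM0]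
      exact hw'.pow_eq_one
    rw [this, inv_neg, inv_inv]
  -- the root of `e m`
  have hroot : aeval θ (e m) = 0 := by
    rw [hθ, e_aeval w hw0]
    have h1 : (w ^ 2 ^ (m + 1)) ^ 2 = -1 := by
      have h2 : ((w ^ 2 ^ (m + 1)) ^ 2) ^ 2 = 1 := by
        rw [← pow_mul, ← pow_mul, show 2 ^ (m + 1) * (2 * 2) = M by rw [hM]; ring]
        exact hw.pow_eq_one
      have h3 : (w ^ 2 ^ (m + 1)) ^ 2 ≠ 1 := by
        rw [← pow_mul, ← pow_succ]
        intro h
        have := Nat.le_of_dvd (by positivity) (hw.dvd_of_pow_eq_one _ h)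
        have := Nat.pow_lt_pow_right (a := 2) (by norm_num) (show m + 1 + 1 < m + 3 by omega)
        omega
      have h4 : ((w ^ 2 ^ (m + 1)) ^ 2 - 1) * ((w ^ 2 ^ (m + 1)) ^ 2 + 1) = 0 := by
        linear_combination h2
      rcases mul_eq_zero.mp h4 with h | h
      · exact absurd (by linear_combination h) h3
      · linear_combination h
    have h0 : w ^ 2 ^ (m + 1) ≠ 0 := pow_ne_zero _ hw0
    have h5 : w ^ 2 ^ (m + 1) * (w ^ 2 ^ (m + 1) + (w ^ 2 ^ (m + 1))⁻¹) = 0 := by
      rw [mul_add, mul_inv_cancel₀ h0]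
      linear_combination h1
    exact (mul_eq_zero.mp h5).resolve_left h0
  intro x
  constructor
  · rintro ⟨hx, hxint⟩
    have hθw : θ ∈ ℚ⟮w⟯ := sub_mem (mem_adjoin_simple_self ℚ w)
      (inv_mem (mem_adjoin_simple_self ℚ w))
    have hxw : x ∈ ℚ⟮w⟯ := by
      have : ℚ⟮θ⟯ ≤ ℚ⟮w⟯ := by
        rw [adjoin_simple_le_iff]; exact hθw
      exact this hx
    obtain ⟨h, hh⟩ := mem_adjoin_of_integral (m + 3) w hw x hxw hxint
    -- `x = g(θ)`
    have hxg : ∃ g : ℚ[X], aeval θ g = x := by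
      have h1 : x ∈ (ℚ⟮θ⟯).toSubalgebra := hx
      rw [adjoin_simple_toSubalgebra_of_isAlgebraic hθalg.isAlgebraic,
        Algebra.adjoin_singleton_eq_range_aeval] at h1
      obtain ⟨g, hg⟩ := h1
      exact ⟨g, hg⟩
    obtain ⟨g, hg⟩ := hxg
    set P : ℚ[X] := h.map (Int.castRingHom ℚ) - g.comp (X - X ^ (M - 1)) with hP
    have evalP : ∀ u : ℂ, aeval u P = aeval u h - aeval (u - u ^ (M - 1)) g := by
      intro u
      rw [hP, map_sub, aeval_comp, map_sub, map_pow, aeval_X, ← algebraMap_int_eq,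
        aeval_map_algebraMap]
    have hPw : aeval w P = 0 := by
      rw [evalP, hpow, hh, ← hθ, hg, sub_self]
    have hcyc : cyclotomic M ℚ ∣ P := by
      rw [cyclotomic_eq_minpoly_rat hw hM0]
      exact minpoly.dvd ℚ w hPw
    have hPw' : aeval (-w⁻¹) P = 0 := by
      obtain ⟨R, hR⟩ := hcyc
      have : aeval (-w⁻¹) (cyclotomic M ℚ) = 0 := by
        rw [cyclotomic_eq_minpoly_rat hw' hM0]
        exact minpoly.aeval ℚ _
      rw [hR, map_mul, this, zero_mul]
    have hxh' : aeval (-w⁻¹) h = x := by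
      rw [evalP, hpow', show -w⁻¹ - -w = θ by rw [hθ]; ring, hg] at hPw'
      linear_combination hPw'
    -- `2 x ∈ ℤ[θ]`
    have h2x : ∃ q : ℤ[X], aeval θ q = 2 * x := by
      refine ⟨∑ i ∈ Finset.range (h.natDegree + 1), C (h.coeff i) * lucas i, ?_⟩
      rw [map_sum]
      have h1 : 2 * x = aeval w h + aeval (-w⁻¹) h := by rw [hh, hxh']; ring
      rw [h1, aeval_eq_sum_range, aeval_eq_sum_range, ← Finset.sum_add_distrib]
      refine Finset.sum_congr rfl fun i _ => ?_
      rw [map_mul, aeval_C, hθ, lucas_eval w hw0]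
      simp only [eq_intCast, zsmul_eq_mul]
      ring
    obtain ⟨q, hq⟩ := h2x
    -- the Eisenstein argument
    let B := IntermediateField.adjoin.powerBasis hθalg
    have hBgen : B.gen = AdjoinSimple.gen ℚ θ := rfl
    have hgenint : IsIntegral ℤ B.gen := by
      rw [hBgen]
      have := (isIntegral_algHom_iff (ℚ⟮θ⟯.val.restrictScalars ℤ) (ℚ⟮θ⟯.val.injective)
        (x := AdjoinSimple.gen ℚ θ)).mp (by simpa using hθint)
      exact this
    have hmin : minpoly ℤ B.gen = e m := by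
      have hev : aeval B.gen (e m) = 0 := by
        have h1 := aeval_algebraMap_apply ℂ (AdjoinSimple.gen ℚ θ) (e m)
        rw [show algebraMap ℚ⟮θ⟯ ℂ (AdjoinSimple.gen ℚ θ) = θ from rfl, hroot] at h1
        rw [hBgen]
        exact (map_eq_zero_iff _ (algebraMap ℚ⟮θ⟯ ℂ).injective).mp h1.symm
      obtain ⟨c, hc⟩ := minpoly.isIntegrallyClosed_dvd hgenint hev
      rcases (e_irreducible m).isUnit_or_isUnit hc with h1 | h1
      · exact absurd h1 (minpoly.not_isUnit ℤ B.gen)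
      · have hcm : c.Monic := by
          have h2 := (e_monic m).1
          rw [hc] at h2
          exact (minpoly.monic hgenint).of_mul_monic_left h2
        rw [hc, hcm.eq_one_of_isUnit h1, mul_one]
    have hxint' : IsIntegral ℤ (⟨x, hx⟩ : ℚ⟮θ⟯) := by
      have := (isIntegral_algHom_iff (ℚ⟮θ⟯.val.restrictScalars ℤ) (ℚ⟮θ⟯.val.injective)
        (x := (⟨x, hx⟩ : ℚ⟮θ⟯))).mp (by simpa using hxint)
      exact this
    have h2mem : (2 : ℤ) • (⟨x, hx⟩ : ℚ⟮θ⟯) ∈ Algebra.adjoin ℤ ({B.gen} : Set ℚ⟮θ⟯) := by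
      rw [Algebra.adjoin_singleton_eq_range_aeval]
      refine ⟨q, ?_⟩
      apply (algebraMap ℚ⟮θ⟯ ℂ).injective
      have h1 := aeval_algebraMap_apply ℂ (AdjoinSimple.gen ℚ θ) q
      rw [show algebraMap ℚ⟮θ⟯ ℂ (AdjoinSimple.gen ℚ θ) = θ from rfl, hq] at h1
      rw [hBgen]
      refine Eq.trans h1.symm ?_
      rw [zsmul_eq_mul, map_mul, map_intCast]
      norm_num
    have hfin := mem_adjoin_of_smul_prime_smul_of_minpoly_isEisensteinAt (B := B)
      Int.prime_two hgenint hxint' h2mem (by rw [hmin]; exact e_eisenstein m)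
    rw [Algebra.adjoin_singleton_eq_range_aeval] at hfin
    obtain ⟨s, hs⟩ := hfin
    rw [Algebra.adjoin_singleton_eq_range_aeval]
    refine ⟨s, ?_⟩
    have h1 := aeval_algebraMap_apply ℂ (AdjoinSimple.gen ℚ θ) s
    rw [show algebraMap ℚ⟮θ⟯ ℂ (AdjoinSimple.gen ℚ θ) = θ from rfl] at h1
    have h2 : aeval (AdjoinSimple.gen ℚ θ) s = (⟨x, hx⟩ : ℚ⟮θ⟯) := hs
    rw [h2] at h1
    exact h1
  · intro hx
    constructor
    · have : Algebra.adjoin ℤ {θ} ≤ (ℚ⟮θ⟯).toSubalgebra.restrictScalars ℤ := by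
        rw [Algebra.adjoin_le_iff]
        rintro y hy
        rw [Set.mem_singleton_iff] at hy
        subst hy
        exact mem_adjoin_simple_self ℚ _
      exact this hx
    · exact (Algebra.IsIntegral.adjoin (by simpa using hθint)).isIntegral
        (⟨x, hx⟩ : Algebra.adjoin ℤ {θ}) |>.map (Algebra.adjoin ℤ {θ}).val

theorem fib_double_root (a : ℂ) (ha : a ^ 2 = -1) (n : ℕ) :
    aeval (2 * a) (fib n) * a = n * a ^ n ∧
    aeval (2 * a) (fib (n + 1)) * a = (n + 1 : ℕ) * a ^ (n + 1) := by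
  induction n with
  | zero => simp [fib]
  | succ n ih =>
    refine ⟨ih.2, ?_⟩
    rw [show n + 1 + 1 = n + 2 from rfl, fib, map_add, map_mul, aeval_X, add_mul, ih.1,
      mul_assoc, ih.2]
    push_cast
    have : a ^ (n + 2) = -a ^ n := by rw [pow_add, ha]; ring
    have h3 : a * a ^ (n + 1) = -a ^ n := by rw [← this]; ring
    linear_combination (2 * (n : ℂ) + 2) * h3 - (n + 2 : ℂ) * this

/-- **Main theorem.** Let `n ≥ 2` be even. Every monic integral polynomial that is irreducible over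
`ℚ` and divides the Fibonacci polynomial `F_n` is monogenic if and only if `n` is a power of `2`. -/
theorem result (n : ℕ) (hn : Even n) (hn2 : 2 ≤ n) :
    (∀ f : ℤ[X], f.Monic → Irreducible (f.map (Int.castRingHom ℚ)) → f ∣ fib n → Monogenic f) ↔
      ∃ k : ℕ, n = 2 ^ k := by
  constructor
  · intro hall
    obtain ⟨k, d, hd, hnd⟩ := Nat.exists_eq_two_pow_mul_odd (n := n) (by omega)
    refine ⟨k, ?_⟩
    by_contra hne
    have hd3 : 3 ≤ d := by
      rcases hd with ⟨c, rfl⟩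
      rcases Nat.eq_zero_or_pos c with rfl | hc
      · simp at hnd; exact absurd hnd hne
      · omega
    have hd0 : d ≠ 0 := by omega
    have hprim := Complex.isPrimitiveRoot_exp d hd0
    set ζ := Complex.exp (2 * Real.pi * Complex.I / d) with hζdef
    have hζ : ζ ^ d = 1 := hprim.pow_eq_one
    have hζ0 : ζ ≠ 0 := hprim.ne_zero hd0
    have h0 : ζ - ζ⁻¹ ≠ 0 := by
      intro h
      have h2 : ζ ^ 2 = 1 := by
        have : ζ * (ζ - ζ⁻¹) = 0 := by rw [h, mul_zero]
        rw [mul_sub, mul_inv_cancel₀ hζ0] at this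
        linear_combination this
      have := Nat.le_of_dvd (by norm_num) (hprim.dvd_of_pow_eq_one 2 h2)
      omega
    have h0' : ζ + ζ⁻¹ ≠ 0 := by
      intro h
      have h2 : ζ ^ 2 = -1 := by
        have : ζ * (ζ + ζ⁻¹) = 0 := by rw [h, mul_zero]
        rw [mul_add, mul_inv_cancel₀ hζ0] at this
        linear_combination this
      have h3 : (ζ ^ 2) ^ d = 1 := by rw [← pow_mul, mul_comm, pow_mul, hζ, one_pow]
      rw [h2, hd.neg_one_pow] at h3
      norm_num at h3
    have hint : IsIntegral ℤ (ζ - ζ⁻¹) := by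
      refine IsIntegral.sub ⟨X ^ d - 1, monic_X_pow_sub_C 1 hd0, by simp [hζ]⟩
        ⟨X ^ d - 1, monic_X_pow_sub_C 1 hd0, by simp [hζ]⟩
    have hζn : ζ ^ n = 1 := by rw [hnd, mul_comm, pow_mul, hζ, one_pow]
    have hF : aeval (ζ - ζ⁻¹) (fib n) = 0 := by
      have h1 := fib_eval ζ hζ0 n
      rw [hn.neg_pow, inv_pow, hζn, inv_one, sub_self] at h1
      exact (mul_eq_zero.mp h1).resolve_left h0'
    have hirr : Irreducible ((minpoly ℤ (ζ - ζ⁻¹)).map (Int.castRingHom ℚ)) := by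
      rw [← algebraMap_int_eq, ← minpoly.isIntegrallyClosed_eq_field_fractions' ℚ hint]
      exact minpoly.irreducible hint.tower_top
    exact not_full d hd ζ hζ h0 (hall _ (minpoly.monic hint) hirr
      (minpoly.isIntegrallyClosed_dvd hint hF) _ (minpoly.aeval ℤ _))
  · rintro ⟨k, rfl⟩ f hf hirr hdvd θ hθ
    have hF : aeval θ (fib (2 ^ k)) = 0 := by
      obtain ⟨g, hg⟩ := hdvd
      rw [hg, map_mul, hθ, zero_mul]
    obtain ⟨w, hw0, rfl⟩ := exists_z θ
    have h1 := fib_eval w hw0 (2 ^ k)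
    rw [hF, mul_zero, hn.neg_pow, inv_pow] at h1
    have hwk : w ^ 2 ^ (k + 1) = 1 := by
      have h2 : w ^ 2 ^ k ≠ 0 := pow_ne_zero _ hw0
      rw [pow_succ, pow_mul, pow_two]
      have h3 : w ^ 2 ^ k * (w ^ 2 ^ k - (w ^ 2 ^ k)⁻¹) = 0 := by rw [← h1, mul_zero]
      rw [mul_sub, mul_inv_cancel₀ h2] at h3
      linear_combination h3
    have hord : orderOf w ∣ 2 ^ (k + 1) := orderOf_dvd_of_pow_eq_one hwk
    obtain ⟨i, hi, hordi⟩ := (Nat.dvd_prime_pow Nat.prime_two).mp hord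
    rcases i with _ | _ | _ | m
    · rw [pow_zero, orderOf_eq_one_iff] at hordi
      rw [hordi]; simpa using full_zero
    · have h2 : w ^ 2 = 1 := by
        have := pow_orderOf_eq_one w
        rwa [hordi] at this
      have h3 : w⁻¹ = w := inv_eq_of_mul_eq_one_right (by rw [← pow_two]; exact h2)
      rw [h3, sub_self]; exact full_zero
    · exfalso
      have h4 : w ^ 4 = 1 := by
        have := pow_orderOf_eq_one w
        rwa [hordi] at this
      have h2 : w ^ 2 ≠ 1 := by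
        intro h
        have := Nat.le_of_dvd (by norm_num) (orderOf_dvd_of_pow_eq_one h)
        rw [hordi] at this
        norm_num at this
      have h5 : w ^ 2 = -1 := by
        have : (w ^ 2 - 1) * (w ^ 2 + 1) = 0 := by linear_combination h4
        rcases mul_eq_zero.mp this with h | h
        · exact absurd (by linear_combination h) h2
        · linear_combination h
      have h6 : w⁻¹ = -w := inv_eq_of_mul_eq_one_right (by linear_combination -h5)
      have h7 := (fib_double_root w h5 (2 ^ k)).1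
      rw [h6, show w - -w = 2 * w by ring] at hF
      rw [hF, zero_mul] at h7
      have h8 : ((2 ^ k : ℕ) : ℂ) * w ^ 2 ^ k ≠ 0 :=
        mul_ne_zero (by exact_mod_cast (by positivity : (2 : ℕ) ^ k ≠ 0)) (pow_ne_zero _ hw0)
      exact h8 h7.symm
    · have hprim : IsPrimitiveRoot w (2 ^ (m + 3)) := by
        have := IsPrimitiveRoot.orderOf w
        rwa [hordi] at this
      exact full_two_power m w hprim

end Pool.Agent.Results.MP_b164a8_nt.EvenFibonacci
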